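import Pool.Agent.helper55.BL.Spec

set_option autoImplicit false

namespace Pool.Agent.helper55.BL

open Finset
open scoped Classical
open Pool.Agent.helper61.BM (Clo dg)

theorem LPA_cons {V : Type} (G : SimpleGraph V) (m : ℕ) (p : ℕ → V) (v : V) (h : Pth G m p)
    (hv : G.Adj (p 0) v) (hn : ∀ j, j ≤ m → p j ≠ v) :
    Pth G (m + 1) (fun j => if j = 0 then v else p (j - 1)) := by
  constructor
  · intro i j hi hj e
    by_cases h1 : i = 0
    · by_cases h2 : j = 0
      · omega
      · simp only [h1, h2, if_true, if_false] at e
        exact absurd e.symm (hn (j - 1) (by omega))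
    · by_cases h2 : j = 0
      · simp only [h1, h2, if_true, if_false] at e
        exact absurd e (hn (i - 1) (by omega))
      · simp only [h1, h2, if_false] at e
        have := h.inj (i - 1) (j - 1) (by omega) (by omega) e
        omega
  · intro i hi
    have h2 : ¬ (i + 1 = 0) := by omega
    by_cases h1 : i = 0
    · simp only [h1, h2, if_true]
      exact hv.symm
    · simp only [h1, h2, if_false]
      have := h.adj (i - 1) (by omega)
      rw [show i - 1 + 1 = i from by omega] at this
      rw [show i + 1 - 1 = i from by omega]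
      exact this

theorem LPA_snoc {V : Type} (G : SimpleGraph V) (m : ℕ) (p : ℕ → V) (v : V) (h : Pth G m p)
    (hv : G.Adj (p m) v) (hn : ∀ j, j ≤ m → p j ≠ v) :
    Pth G (m + 1) (fun j => if j ≤ m then p j else v) := by
  constructor
  · intro i j hi hj e
    by_cases h1 : i ≤ m
    · by_cases h2 : j ≤ m
      · simp only [h1, h2, if_true] at e
        exact h.inj i j h1 h2 e
      · simp only [h1, h2, if_true, if_false] at e
        exact absurd e (hn i h1)
    · by_cases h2 : j ≤ m
      · simp only [h1, h2, if_true, if_false] at e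
        exact absurd e.symm (hn j h2)
      · omega
  · intro i hi
    have h1 : i ≤ m := by omega
    by_cases h2 : i + 1 ≤ m
    · simp only [h1, h2, if_true]
      exact h.adj i (by omega)
    · simp only [h1, h2, if_true, if_false]
      have : i = m := by omega
      rw [this]
      exact hv

theorem LPA_lt {V : Type} [Fintype V] (G : SimpleGraph V) (m : ℕ) (p : ℕ → V)
    (h : Pth G m p) : m + 1 ≤ Fintype.card V := by
  have hf : Function.Injective (fun i : Fin (m + 1) => p (i : ℕ)) := by
    intro i j e
    have hi := i.2
    have hj := j.2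
    exact Fin.ext (h.inj i j (by omega) (by omega) e)
  have := Fintype.card_le_of_injective _ hf
  rwa [Fintype.card_fin] at this

theorem LPA_ex {V : Type} [Fintype V] [Nonempty V] (G : SimpleGraph V) :
    ∃ (m : ℕ) (p : ℕ → V), Pth G m p ∧ (∀ q : ℕ → V, ¬ Pth G (m + 1) q) := by
  by_contra hcon
  push Not at hcon
  have hall : ∀ m : ℕ, ∃ p : ℕ → V, Pth G m p := by
    intro m
    induction m with
    | zero =>
      obtain ⟨v⟩ := (inferInstance : Nonempty V)
      refine ⟨fun _ => v, ?_, ?_⟩
      · intro i j hi hj _
        omega
      · intro i hi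
        omega
    | succ m ih =>
      obtain ⟨p, hp⟩ := ih
      exact hcon m p hp
  obtain ⟨p, hp⟩ := hall (Fintype.card V)
  have := LPA_lt G _ p hp
  omega

theorem LPA : LPA_stmt := by
  intro V _ _ G
  obtain ⟨m, p, hp, hmax⟩ := LPA_ex G
  refine ⟨m, p, hp, hmax, ?_, ?_⟩
  · intro v hv
    by_contra hcon
    push Not at hcon
    exact hmax _ (LPA_cons G m p v hp hv hcon)
  · intro v hv
    by_contra hcon
    push Not at hcon
    exact hmax _ (LPA_snoc G m p v hp hv hcon)

end Pool.Agent.helper55.BL
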